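import Pool.Agent.U68.TU.Stm

set_option autoImplicit false

namespace Pool.Agent.U688.TU

open NumberField Quaternion Pool.Agent.U68.TU

variable {K : Type} [Field K] [NumberField K]

lemma co_expl (B : BQ K) (a b c d : ℤ) :
    B.co ((a : 𝓞 K) + b * B.f + c * B.s + d * (B.s * B.f)) = ![a, b, c, d] := by
  have h := B.hco ![a, b, c, d]
  have h2 : B.co (B.co.symm ![a, b, c, d]) = ![a, b, c, d] := B.co.apply_symm_apply _
  rw [h] at h2
  simpa using h2

lemma lam_expl (B : BQ K) (a b c d : ℤ) (x : 𝓞 K)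
    (hx : x = (a : 𝓞 K) + b * B.f + c * B.s + d * (B.s * B.f)) : B.lam x = a - c := by
  subst hx
  unfold BQ.lam
  rw [co_expl]
  simp

lemma no_two (B : BQ K) (u : 𝓞 K) (h : 2 * u = 1) : False := by
  have h1 : B.co (2 * u) = B.co u + B.co u := by rw [two_mul, map_add]
  have h2 : B.co (1 : 𝓞 K) = ![1, 0, 0, 0] := by
    have := co_expl B 1 0 0 0
    simpa using this
  rw [h, h2] at h1
  have h3 := congrFun h1 0
  simp at h3
  omega

lemma no_s (B : BQ K) (u : 𝓞 K) (h : (B.s * u) ^ 2 = 1) : False := by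
  apply no_two B (u ^ 2)
  rw [mul_pow, B.hs] at h
  exact h

lemma s2 (B : BQ K) : (B.s : K) ^ 2 = 2 := by
  have := congrArg (algebraMap (𝓞 K) K) B.hs
  rw [map_pow, map_ofNat] at this
  exact this

lemma f2 (B : BQ K) : (B.f : K) ^ 2 = (B.f : K) + 1 := by
  have := congrArg (algebraMap (𝓞 K) K) B.hf
  rw [map_pow, map_add, map_one] at this
  exact this

lemma s_ne (B : BQ K) : (B.s : K) ≠ 0 := by
  intro h
  have := s2 B
  rw [h] at this
  norm_num at this

lemma f_ne (B : BQ K) : (B.f : K) ≠ 0 := by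
  intro h
  have := f2 B
  rw [h] at this
  norm_num at this

lemma exists_phi (B : BQ K) : ∃ _ : K →+* ℝ, True := by
  obtain ⟨φ, -⟩ := B.emb (Real.sqrt 2) ((1 + Real.sqrt 5) / 2) (by norm_num) (by
    have : Real.sqrt 5 ^ 2 = 5 := by norm_num
    nlinarith)
  exact ⟨φ, trivial⟩

lemma phi_normSq_pos (φ : K →+* ℝ) (x : ℍ[K]) (hx : x ≠ 0) : 0 < φ (normSq x) := by
  rw [normSq_def']
  simp only [map_add, map_pow]
  by_contra hcon
  have h1 := sq_nonneg (φ x.re)
  have h2 := sq_nonneg (φ x.imI)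
  have h3 := sq_nonneg (φ x.imJ)
  have h4 := sq_nonneg (φ x.imK)
  have e1 : φ x.re = 0 := by
    have : φ x.re ^ 2 = 0 := by linarith
    exact pow_eq_zero_iff (two_ne_zero) |>.1 this
  have e2 : φ x.imI = 0 := by
    have : φ x.imI ^ 2 = 0 := by linarith
    exact pow_eq_zero_iff (two_ne_zero) |>.1 this
  have e3 : φ x.imJ = 0 := by
    have : φ x.imJ ^ 2 = 0 := by linarith
    exact pow_eq_zero_iff (two_ne_zero) |>.1 this
  have e4 : φ x.imK = 0 := by
    have : φ x.imK ^ 2 = 0 := by linarith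
    exact pow_eq_zero_iff (two_ne_zero) |>.1 this
  apply hx
  have inj := φ.injective
  ext
  · exact inj (by simpa using e1)
  · exact inj (by simpa using e2)
  · exact inj (by simpa using e3)
  · exact inj (by simpa using e4)

lemma normSq_ne (B : BQ K) (x : ℍ[K]) (hx : x ≠ 0) : normSq x ≠ 0 := by
  obtain ⟨φ, -⟩ := exists_phi B
  intro h
  have := phi_normSq_pos φ x hx
  rw [h] at this
  simp at this

lemma lam_zero (B : BQ K) : B.lam 0 = 0 := by
  unfold BQ.lam
  simp

/-- right cancellation -/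
lemma cancel {o o' x : ℍ[K]} (hx : normSq x ≠ 0) (h : o * x = o' * x) : o = o' := by
  have h1 : o * x * star x = o' * x * star x := by rw [h]
  rw [mul_assoc, mul_assoc, self_mul_star, mul_coe_eq_smul, mul_coe_eq_smul] at h1
  have h2 := congrArg (fun z => (normSq x)⁻¹ • z) h1
  simpa [smul_smul, inv_mul_cancel₀ hx] using h2

/-- `OS` -/
def OS (hO : S_ORD) (B : BQ K) : AddSubgroup ℍ[K] where
  carrier := {x | InOS B x}
  zero_mem' := ⟨0, 0, 0, 0, by ext <;> simp⟩
  add_mem' := fun {x y} hx hy => (hO K B).2.1 x y hx hy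
  neg_mem' := by
    intro x hx
    have := (hO K B).2.2.2.1 (-1) x hx
    simpa using this

lemma mem_OS (hO : S_ORD) (B : BQ K) (x : ℍ[K]) : x ∈ OS hO B ↔ InOS B x := Iff.rfl

lemma lat_OS (hO : S_ORD) (B : BQ K) : Lat B (OS hO B) 1 where
  sub := fun x hx => hx
  mul := fun o x ho hx => (hO K B).1 o x ho hx
  big := ⟨1, one_pos, by
    have := (hO K B).2.2.2.2.2.1
    simpa [mem_OS] using this⟩
  tp := by
    intro φ
    simp
  dvd := by
    intro x hx
    obtain ⟨t, ht⟩ := ((hO K B).2.2.2.2.1 x hx).1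
    exact ⟨t, by rw [ht]; simp⟩
  gen := ⟨1, fun _ => 1, fun _ => 1, fun _ => (hO K B).2.2.2.2.2.1, by simp⟩

/-- norm one elements -/
def W (B : BQ K) : Set ℍ[K] := {u | InOS B u ∧ normSq u = 1}

/-- the left ideal generated by `x` -/
def GG (hO : S_ORD) (B : BQ K) (x : ℍ[K]) : AddSubgroup ℍ[K] := (OS hO B).map (AddMonoidHom.mulRight x)

lemma mem_GG (hO : S_ORD) (B : BQ K) (x y : ℍ[K]) : y ∈ GG hO B x ↔ ∃ o, InOS B o ∧ o * x = y := by
  unfold GG
  rw [AddSubgroup.mem_map]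
  rfl

end Pool.Agent.U688.TU
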