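import Pool.Agent.U688.TU.A

set_option autoImplicit false

namespace Pool.Agent.U688.TU

open NumberField Quaternion Pool.Agent.U68.TU

variable {K : Type} [Field K] [NumberField K]

lemma coe_inj' {a b : 𝓞 K} (h : (a : K) = (b : K)) : a = b := RingOfIntegers.ext h

lemma cadd (a b : 𝓞 K) : ((a + b : 𝓞 K) : K) = (a : K) + (b : K) := rfl
lemma cmul (a b : 𝓞 K) : ((a * b : 𝓞 K) : K) = (a : K) * (b : K) := rfl
lemma cone : ((1 : 𝓞 K) : K) = 1 := rfl
lemma czero : ((0 : 𝓞 K) : K) = 0 := rfl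
lemma cneg (a : 𝓞 K) : ((-a : 𝓞 K) : K) = -(a : K) := rfl
lemma csub (a b : 𝓞 K) : ((a - b : 𝓞 K) : K) = (a : K) - (b : K) := rfl
lemma cpow (a : 𝓞 K) (n : ℕ) : ((a ^ n : 𝓞 K) : K) = (a : K) ^ n := map_pow (algebraMap (𝓞 K) K) a n
lemma cint (a : ℤ) : ((a : 𝓞 K) : K) = (a : K) := map_intCast (algebraMap (𝓞 K) K) a
lemma ctwo : ((2 : 𝓞 K) : K) = 2 := map_ofNat (algebraMap (𝓞 K) K) 2

lemma no_sK (B : BQ K) (u : 𝓞 K) (h : ((B.s : K) * (u : K)) ^ 2 = 1) : False := by
  apply no_s B u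
  apply coe_inj'
  rw [cpow, cmul, cone]
  exact h

/-- three elements of norm `2 + s` -/
def cc (B : BQ K) : Fin 3 → ℍ[K] :=
  ![⟨1 + 1 / (B.s : K), 1 / (B.s : K), 0, 0⟩, ⟨1 + 1 / (B.s : K), 0, 1 / (B.s : K), 0⟩,
    ⟨1 + 1 / (B.s : K), 0, 0, 1 / (B.s : K)⟩]

lemma cc_OS (B : BQ K) (m : Fin 3) : InOS B (cc B m) := by
  have hs := s2 B
  have hs0 := s_ne B
  have h1 : 1 / (B.s : K) = (B.s : K) / 2 := by
    field_simp
    linear_combination -hs
  fin_cases m
  · refine ⟨1, 1, 0, 0, ?_⟩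
    ext <;> simp [cc, cone, czero]
  · refine ⟨1, 0, 1, 0, ?_⟩
    ext <;> simp [cc, cone, czero]
  · refine ⟨1 + B.s, -1, -1, B.s, ?_⟩
    ext
    · simp only [cc, cadd, cone, cneg, Fin.reduceFinMk, Matrix.cons_val]
      rw [neg_div, h1]; ring
    · simp only [cc, cadd, cone, cneg, Fin.reduceFinMk, Matrix.cons_val]
      rw [neg_div, h1]; ring
    · simp only [cc, cadd, cone, cneg, Fin.reduceFinMk, Matrix.cons_val]
      rw [neg_div, h1]; ring
    · simp only [cc, cadd, cone, cneg, Fin.reduceFinMk, Matrix.cons_val]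
      rw [h1]

lemma cc_norm (B : BQ K) (m : Fin 3) : normSq (cc B m) = 2 + (B.s : K) := by
  have hs := s2 B
  have hs0 := s_ne B
  have h1 : 1 / (B.s : K) = (B.s : K) / 2 := by
    field_simp
    linear_combination -hs
  rw [normSq_def']
  fin_cases m
  · simp only [cc, Fin.zero_eta, Matrix.cons_val]
    rw [h1]
    linear_combination (1 / 2 : K) * hs
  · simp only [cc, Fin.mk_one, Matrix.cons_val]
    rw [h1]
    linear_combination (1 / 2 : K) * hs
  · simp only [cc, Fin.reduceFinMk, Matrix.cons_val]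
    rw [h1]
    linear_combination (1 / 2 : K) * hs

lemma cc_sep (B : BQ K) (m m' : Fin 3) (hm : m ≠ m') (v : ℍ[K]) (hv : InOS B v)
    (h : cc B m = v * cc B m') : False := by
  have hs := s2 B
  have hs0 := s_ne B
  have h1 : 1 / (B.s : K) = (B.s : K) / 2 := by
    field_simp
    linear_combination -hs
  have h2 : cc B m * star (cc B m') = (2 + (B.s : K)) • v := by
    rw [h, mul_assoc, self_mul_star, mul_coe_eq_smul, cc_norm]
  obtain ⟨a, b, c, d, rfl⟩ := hv
  have h3 := congrArg (fun q : ℍ[K] => q.imK) h2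
  simp only [imK_mul, imK_smul, re_star, imI_star, imJ_star, imK_star, smul_eq_mul] at h3
  -- conclusion
  have key : ((2 + (B.s : K)) * (d / 2)) ^ 2 = 1 / 4 ∨
      ((2 + (B.s : K)) * (d / 2)) ^ 2 = ((1 + (B.s : K) / 2) * ((B.s : K) / 2)) ^ 2 := by
    rw [← h3]
    fin_cases m <;> fin_cases m' <;> simp only [cc, Fin.zero_eta, Fin.mk_one, Fin.reduceFinMk, Matrix.cons_val, h1] at * <;>
    first
      | exact absurd rfl hm
      | (left; linear_combination ((1/16 : K) * ((B.s : K)^2 + 2)) * hs)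
      | (right; ring)
  rcases key with key | key
  · apply no_sK B ((1 + B.s) * d)
    rw [cmul, cadd, cone]
    have : (B.s : K) * ((1 + (B.s : K)) * (d : K)) = 2 * ((2 + (B.s : K)) * (d / 2)) := by
      linear_combination (d : K) * hs
    rw [this, mul_pow, key]
    norm_num
  · apply no_sK B d
    have e1 : (1 + (B.s : K)) ≠ 0 := by
      intro h0
      have h4 : (B.s : K) = -1 := by linear_combination h0
      rw [h4] at hs
      norm_num at hs
    have e2 : ((2 + (B.s : K)) * (d / 2)) = (1 + (B.s : K)) * ((B.s : K) * d) / 2 := by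
      linear_combination (-(1/2 : K) * d) * hs
    have e3 : ((1 + (B.s : K) / 2) * ((B.s : K) / 2)) = (1 + (B.s : K)) / 2 := by
      linear_combination (1/4 : K) * hs
    rw [e2, e3] at key
    have e4 : (1 + (B.s : K)) ^ 2 / 4 * (((B.s : K) * d) ^ 2 - 1) = 0 := by
      linear_combination key
    rcases mul_eq_zero.1 e4 with h5 | h5
    · exfalso
      have : (1 + (B.s : K)) ^ 2 = 0 := by linear_combination 4 * h5
      exact e1 (pow_eq_zero_iff (two_ne_zero) |>.1 this)
    · linear_combination h5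

end Pool.Agent.U688.TU
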