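import Pool.Agent.U688.TU.B

set_option autoImplicit false
set_option linter.unusedSectionVars false
set_option linter.unusedSimpArgs false

namespace Pool.Agent.U688.TU

open NumberField Quaternion Pool.Agent.U68.TU

variable {K : Type} [Field K] [NumberField K]

lemma cthree : ((3 : 𝓞 K) : K) = 3 := map_ofNat (algebraMap (𝓞 K) K) 3

/-- scalars -/
def zz (B : BQ K) : Fin 10 → 𝓞 K :=
  ![1, 1 + B.s, B.f, (1 + B.s) * B.f, 1, 1, 1, B.f, B.f, B.f]

/-- quaternions -/
def qq (B : BQ K) : Fin 10 → ℍ[K] :=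
  ![1, 1, 1, 1, cc B 0, cc B 1, cc B 2, cc B 0, cc B 1, cc B 2]

/-- norms -/
def tt : Fin 10 → (Fin 4 → ℤ) :=
  ![![1, 0, 0, 0], ![3, 0, 2, 0], ![1, 1, 0, 0], ![3, 3, 2, 2], ![2, 0, 1, 0], ![2, 0, 1, 0], ![2, 0, 1, 0],
    ![2, 2, 1, 1], ![2, 2, 1, 1], ![2, 2, 1, 1]]

lemma qq_OS (hO : S_ORD) (B : BQ K) (i : Fin 10) : InOS B (qq B i) := by
  have h1 := (hO K B).2.2.2.2.2.1
  fin_cases i
  · exact h1
  · exact h1
  · exact h1
  · exact h1
  · exact cc_OS B 0
  · exact cc_OS B 1
  · exact cc_OS B 2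
  · exact cc_OS B 0
  · exact cc_OS B 1
  · exact cc_OS B 2

lemma rr_norm (B : BQ K) (i : Fin 10) :
    normSq ((zz B i : K) • qq B i) = ((B.co.symm (tt i) : 𝓞 K) : K) := by
  have hs := s2 B
  have hf := f2 B
  rw [normSq_smul, B.hco]
  have c0 := cc_norm B 0
  have c1 := cc_norm B 1
  have c2 := cc_norm B 2
  fin_cases i <;>
  simp only [zz, qq, tt, Fin.zero_eta, Fin.mk_one, Fin.reduceFinMk, Matrix.cons_val, cadd, cmul, cone, cint,
    map_one, c0, c1, c2, Int.cast_zero, Int.cast_one, Int.cast_ofNat, czero, ctwo, cthree]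
  · ring
  · linear_combination hs
  · linear_combination hf
  · linear_combination ((B.f : K) ^ 2) * hs + (3 + 2 * (B.s : K)) * hf
  · ring
  · ring
  · ring
  · linear_combination (2 + (B.s : K)) * hf
  · linear_combination (2 + (B.s : K)) * hf
  · linear_combination (2 + (B.s : K)) * hf

lemma lam_tt (B : BQ K) (i : Fin 10) : B.lam (B.co.symm (tt i)) = 1 := by
  unfold BQ.lam
  rw [B.co.apply_symm_apply]
  fin_cases i <;> simp [tt]

lemma zz_ne (B : BQ K) (i : Fin 10) : (zz B i : K) ≠ 0 := by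
  have hs := s2 B
  have hf := f_ne B
  have e1 : (1 + (B.s : K)) ≠ 0 := by
    intro h0
    have h4 : (B.s : K) = -1 := by linear_combination h0
    rw [h4] at hs
    norm_num at hs
  fin_cases i <;>
  simp only [zz, Fin.zero_eta, Fin.mk_one, Fin.reduceFinMk, Matrix.cons_val, cadd, cmul, cone]
  · exact one_ne_zero
  · exact e1
  · exact hf
  · exact mul_ne_zero e1 hf
  · exact one_ne_zero
  · exact one_ne_zero
  · exact one_ne_zero
  · exact hf
  · exact hf
  · exact hf

lemma rr_sep (B : BQ K) (i j : Fin 10) (v : ℍ[K]) (hv : InOS B v) (hv1 : normSq v = 1)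
    (h : (zz B i : K) • qq B i = v * ((zz B j : K) • qq B j)) : i = j := by
  have hn : normSq ((zz B i : K) • qq B i) = normSq ((zz B j : K) • qq B j) := by
    rw [h, map_mul, hv1, one_mul]
  rw [rr_norm, rr_norm] at hn
  have hn2 := B.co.symm.injective (coe_inj' hn)
  by_contra hij
  have key : ∀ i j : Fin 10, i ≠ j → tt i = tt j → ∃ m m' : Fin 3, m ≠ m' ∧
      ((i = 4 + Fin.castLE (by norm_num) m ∧ j = 4 + Fin.castLE (by norm_num) m') ∨
       (i = 7 + Fin.castLE (by norm_num) m ∧ j = 7 + Fin.castLE (by norm_num) m')) := by decide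
  obtain ⟨m, m', hm, hh⟩ := key i j hij hn2
  have hz : zz B i = zz B j ∧ qq B i = cc B m ∧ qq B j = cc B m' := by
    rcases hh with ⟨rfl, rfl⟩ | ⟨rfl, rfl⟩
    · fin_cases m <;> fin_cases m' <;> exact ⟨rfl, rfl, rfl⟩
    · fin_cases m <;> fin_cases m' <;> exact ⟨rfl, rfl, rfl⟩
  rw [hz.2.1, hz.2.2, hz.1, mul_smul_comm] at h
  have h2 := congrArg (fun q => ((zz B j : K))⁻¹ • q) h
  simp only [smul_smul, inv_mul_cancel₀ (zz_ne B j), one_smul] at h2
  exact cc_sep B m m' hm v hv h2

lemma W_count (hO : S_ORD) (hC : S_COUNT) (B : BQ K) : (W B).Finite ∧ (W B).ncard ≤ 48 := by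
  have h480 := hC K B (OS hO B) 1 (lat_OS hO B)
  have hfin : (Roots B (OS hO B) 1).Finite := Set.finite_of_ncard_ne_zero (by rw [h480]; norm_num)
  have hmem : ∀ (i : Fin 10) (u : ℍ[K]), u ∈ W B → u * ((zz B i : K) • qq B i) ∈ Roots B (OS hO B) 1 := by
    intro i u hu
    refine ⟨?_, B.co.symm (tt i), ?_, lam_tt B i⟩
    · exact (hO K B).1 _ _ hu.1 ((hO K B).2.2.2.1 _ _ (qq_OS hO B i))
    · rw [map_mul, hu.2, rr_norm, cone]
  have hWf : (W B).Finite := by
    apply hfin.subset
    intro u hu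
    have := hmem 0 u hu
    simpa [zz, qq, cone] using this
  refine ⟨hWf, ?_⟩
  have hcard : ((Finset.univ : Finset (Fin 10)) ×ˢ hWf.toFinset).card ≤ hfin.toFinset.card := by
    apply Finset.card_le_card_of_injOn (fun p => p.2 * ((zz B p.1 : K) • qq B p.1))
    · intro p hp
      simp only [Finset.coe_product, Finset.coe_univ, Set.Finite.coe_toFinset, Set.mem_prod, Set.mem_univ,
        true_and] at hp
      simp only [Set.Finite.coe_toFinset]
      exact hmem p.1 p.2 hp
    · rintro ⟨i, u⟩ hp ⟨j, u'⟩ hp' heq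
      simp only [Finset.coe_product, Finset.coe_univ, Set.Finite.coe_toFinset, Set.mem_prod, Set.mem_univ,
        true_and] at hp hp'
      simp only at heq
      have hu1 : star u * u = 1 := by
        rw [star_mul_self, hp.2]; simp
      have hv : InOS B (star u * u') := (hO K B).1 _ _ ((hO K B).2.2.1 _ hp.1) hp'.1
      have hv1 : normSq (star u * u') = 1 := by
        rw [map_mul, normSq_star, hp.2, hp'.2, one_mul]
      have h3 : (zz B i : K) • qq B i = (star u * u') * ((zz B j : K) • qq B j) := by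
        rw [mul_assoc, ← heq, ← mul_assoc, hu1, one_mul]
      have hij := rr_sep B i j _ hv hv1 h3
      subst hij
      have hne : normSq ((zz B i : K) • qq B i) ≠ 0 := by
        rw [rr_norm]
        intro h0
        have h1 : B.co.symm (tt i) = 0 := coe_inj' h0
        have h2 := lam_tt B i
        rw [h1, lam_zero] at h2
        norm_num at h2
      have := cancel hne heq
      rw [this]
  rw [Finset.card_product, Finset.card_univ, Fintype.card_fin] at hcard
  rw [Set.ncard_eq_toFinset_card _ hfin] at h480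
  rw [Set.ncard_eq_toFinset_card _ hWf]
  omega

end Pool.Agent.U688.TU
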