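import Pool.Agent.U688.TU.C

set_option autoImplicit false
set_option linter.unusedSectionVars false
set_option linter.unusedSimpArgs false

namespace Pool.Agent.U688.TU

open NumberField Quaternion Pool.Agent.U68.TU

variable {K : Type} [Field K] [NumberField K]

lemma n_ne (B : BQ K) (n : 𝓞 K) (hn : TP (n : K)) : (n : K) ≠ 0 := by
  obtain ⟨φ, -⟩ := exists_phi B
  intro h
  have := hn φ
  rw [h] at this
  simp at this

lemma dual_key (hD : S_DUAL) (hO : S_ORD) (B : BQ K) (I : AddSubgroup ℍ[K]) (n : 𝓞 K) (hL : Lat B I n)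
    (x y : ℍ[K]) (hx : x ∈ I) (hy : y ∈ I) (t : 𝓞 K) (ht : normSq x = (n : K) * t) :
    ∃ o, InOS B o ∧ (t : K) • y = o * x := by
  obtain ⟨o, ho, h⟩ := (hD K B I n hL).2 x hx y hy
  refine ⟨o, ho, ?_⟩
  have h1 : y * star x * x = ((n : K) • o) * x := by rw [h]
  rw [mul_assoc, star_mul_self, mul_coe_eq_smul, ht, smul_mul_assoc, mul_smul] at h1
  have h2 := congrArg (fun q => ((n : K))⁻¹ • q) h1
  simpa only [smul_smul, ← mul_assoc, inv_mul_cancel₀ (n_ne B n hL.tp), one_smul, one_mul] using h2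

lemma root_class (hT : S_T1) (B : BQ K) (I : AddSubgroup ℍ[K]) (n : 𝓞 K) (hL : Lat B I n) (x : ℍ[K])
    (hx : x ∈ Roots B I n) :
    ∃ e e' : 𝓞 K, e * e' = 1 ∧ (normSq x = (n : K) * ((e ^ 2 : 𝓞 K) : K) ∨
      ((e = 1 ∨ e = B.f) ∧ normSq x = (n : K) * (((2 + B.s) * e ^ 2 : 𝓞 K) : K))) := by
  obtain ⟨hxI, t, ht, hl⟩ := hx
  have hx0 : x ≠ 0 := by
    rintro rfl
    rw [map_zero] at ht
    have h1 : (t : K) = 0 := by
      rcases mul_eq_zero.1 ht.symm with h | h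
      · exact absurd h (n_ne B n hL.tp)
      · exact h
    have h2 : t = 0 := coe_inj' h1
    rw [h2, lam_zero] at hl
    norm_num at hl
  have htp : TP (t : K) := by
    intro φ
    have h1 := phi_normSq_pos φ x hx0
    rw [ht, map_mul] at h1
    have h2 := hL.tp φ
    exact (pos_iff_pos_of_mul_pos h1).1 h2
  have hs := B.hs
  have hf := B.hf
  rcases hT K B t htp hl with h | h | h | h | h | h
  · exact ⟨1, 1, one_mul 1, Or.inl (by rw [ht, h, one_pow])⟩
  · exact ⟨1 + B.s, B.s - 1, by linear_combination hs, Or.inl (by rw [ht, h])⟩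
  · exact ⟨B.f, B.f - 1, by linear_combination hf, Or.inl (by rw [ht, h])⟩
  · exact ⟨(1 + B.s) * B.f, (B.s - 1) * (B.f - 1),
      by linear_combination (B.f ^ 2 - B.f) * hs + hf, Or.inl (by rw [ht, h])⟩
  · exact ⟨1, 1, one_mul 1, Or.inr ⟨Or.inl rfl, by rw [ht, h, one_pow, mul_one]⟩⟩
  · exact ⟨B.f, B.f - 1, by linear_combination hf, Or.inr ⟨Or.inr rfl, by rw [ht, h]⟩⟩

lemma root_mid (hD : S_DUAL) (hO : S_ORD) (B : BQ K) (I : AddSubgroup ℍ[K]) (n : 𝓞 K) (hL : Lat B I n)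
    (x : ℍ[K]) (hx : x ∈ I) (e e' : 𝓞 K) (he : e * e' = 1)
    (hN : normSq x = (n : K) * (((2 + B.s) * e ^ 2 : 𝓞 K) : K)) : Mid B I (GG hO B x) := by
  have hs := B.hs
  have hn := n_ne B n hL.tp
  refine ⟨?_, ?_, ?_, ?_, ?_⟩
  · intro y hy
    obtain ⟨o, ho, rfl⟩ := (mem_GG hO B x y).1 hy
    exact hL.mul o x ho hx
  · intro y hy
    obtain ⟨o, ho, h⟩ := dual_key hD hO B I n hL x y hx hy _ hN
    rw [mem_GG]
    refine ⟨((((B.s - 1) * e' ^ 2 : 𝓞 K)) : K) • o, (hO K B).2.2.2.1 _ _ ho, ?_⟩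
    rw [smul_mul_assoc, ← h, smul_smul, ← cmul]
    congr 2
    linear_combination (B.s - 1) * (2 + B.s) * (e * e' + 1) * he + hs
  · intro o y ho hy
    obtain ⟨o', ho', rfl⟩ := (mem_GG hO B x y).1 hy
    rw [mem_GG]
    exact ⟨o * o', (hO K B).1 _ _ ho ho', by rw [mul_assoc]⟩
  · by_contra hcon
    push Not at hcon
    obtain ⟨r, a, xs, hxs, hgen⟩ := hL.gen
    have h1 : ∀ k, ∃ u : 𝓞 K, normSq (xs k) = (n : K) * (((2 + B.s) * u : 𝓞 K) : K) := by
      intro k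
      obtain ⟨o, ho, h⟩ := (mem_GG hO B x _).1 (hcon (xs k) (hxs k))
      obtain ⟨t, ht⟩ := ((hO K B).2.2.2.2.1 o ho).1
      refine ⟨e ^ 2 * t, ?_⟩
      rw [← h, map_mul, ht, hN]
      simp only [cmul]
      ring
    choose u hu using h1
    have h2 : (n : K) = (n : K) * (((2 + B.s) * ∑ k, a k * u k : 𝓞 K) : K) := by
      conv_lhs => rw [hgen]
      have h3 : (((2 + B.s) * ∑ k, a k * u k : 𝓞 K) : K) = ∑ k, (a k : K) * (((2 + B.s) * u k : 𝓞 K) : K) := by
        have : ((2 + B.s) * ∑ k, a k * u k : 𝓞 K) = ∑ k, a k * ((2 + B.s) * u k) := by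
          rw [Finset.mul_sum]
          exact Finset.sum_congr rfl (fun k _ => by ring)
        rw [this]
        rw [show ((∑ k, a k * ((2 + B.s) * u k) : 𝓞 K) : K) =
          ∑ k, ((a k * ((2 + B.s) * u k) : 𝓞 K) : K) from map_sum (algebraMap (𝓞 K) K) _ _]
        rfl
      rw [h3, Finset.mul_sum]
      apply Finset.sum_congr rfl
      intro k _
      rw [hu k]
      ring
    have h4 : (((2 + B.s) * ∑ k, a k * u k : 𝓞 K) : K) = ((1 : 𝓞 K) : K) := by
      have := mul_left_cancel₀ hn (show (n : K) * 1 = (n : K) * (((2 + B.s) * ∑ k, a k * u k : 𝓞 K) : K) by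
        rw [mul_one]; exact h2)
      rw [← this, cone]
    have h5 := coe_inj' h4
    apply no_s B ((1 + B.s) * ∑ k, a k * u k)
    have : B.s * ((1 + B.s) * ∑ k, a k * u k) = (2 + B.s) * ∑ k, a k * u k := by
      linear_combination (∑ k, a k * u k) * hs
    rw [this, h5, one_pow]
  · refine ⟨x, (mem_GG hO B x x).2 ⟨1, (hO K B).2.2.2.2.2.1, one_mul x⟩, ?_⟩
    rintro ⟨y, hy, hxy⟩
    obtain ⟨t, ht⟩ := hL.dvd y hy
    rw [hxy, normSq_smul, ht, s2] at hN
    have h1 : ((2 * t : 𝓞 K) : K) = (((2 + B.s) * e ^ 2 : 𝓞 K) : K) := by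
      apply mul_left_cancel₀ hn
      rw [← hN, cmul, ctwo]
      ring
    have h2 := coe_inj' h1
    apply no_s B (t * e' ^ 2 - 1)
    have h3 : B.s = 2 * (t * e' ^ 2 - 1) := by
      linear_combination -(e' ^ 2) * h2 - (2 + B.s) * (e * e' + 1) * he
    have h4 : (2 : 𝓞 K) * (B.s * (t * e' ^ 2 - 1)) = 2 * 1 := by
      linear_combination -B.s * h3 + hs
    have h5 := mul_left_cancel₀ (two_ne_zero) h4
    rw [h5, one_pow]

lemma two_s_ne (B : BQ K) : ((2 + B.s : 𝓞 K) : K) ≠ 0 := by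
  have hs := s2 B
  rw [cadd, ctwo]
  intro h0
  have h4 : (B.s : K) = -2 := by linear_combination h0
  rw [h4] at hs
  norm_num at hs

/-- the fibre bound -/
lemma fibre (hO : S_ORD) (B : BQ K) (hW : (W B).Finite ∧ (W B).ncard ≤ 48)
    (n : 𝓞 K) (hn : (n : K) ≠ 0) (R : Set ℍ[K])
    (hR : ∀ x ∈ R, ∃ e : 𝓞 K, (e = 1 ∨ e = B.f) ∧ normSq x = (n : K) * (((2 + B.s) * e ^ 2 : 𝓞 K) : K))
    (x : ℍ[K]) (e₀ e₀' : 𝓞 K) (he₀ : e₀ * e₀' = 1)
    (hx : normSq x = (n : K) * (((2 + B.s) * e₀ ^ 2 : 𝓞 K) : K)) :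
    {y ∈ R | GG hO B y = GG hO B x}.ncard ≤ 96 := by
  have hsub : {y ∈ R | GG hO B y = GG hO B x} ⊆ ((fun u => ((1 * e₀' : 𝓞 K) : K) • (u * x)) '' W B) ∪
      ((fun u => ((B.f * e₀' : 𝓞 K) : K) • (u * x)) '' W B) := by
    rintro y ⟨hyR, hyG⟩
    have hy : y ∈ GG hO B x := by
      rw [← hyG, mem_GG]
      exact ⟨1, (hO K B).2.2.2.2.2.1, one_mul y⟩
    obtain ⟨o, ho, rfl⟩ := (mem_GG hO B x _).1 hy
    obtain ⟨e₁, he₁, hN⟩ := hR _ hyR
    have hinv : ∃ e₁' : 𝓞 K, e₁ * e₁' = 1 := by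
      rcases he₁ with rfl | rfl
      · exact ⟨1, one_mul 1⟩
      · exact ⟨B.f - 1, by linear_combination B.hf⟩
    obtain ⟨e₁', he₁'⟩ := hinv
    have hu : ((e₀ * e₁' : 𝓞 K) : K) • o ∈ W B := by
      refine ⟨(hO K B).2.2.2.1 _ _ ho, ?_⟩
      have h1 : normSq o * ((e₀ : K) ^ 2) = (e₁ : K) ^ 2 := by
        rw [map_mul, hx] at hN
        apply mul_left_cancel₀ (mul_ne_zero hn (two_s_ne B))
        simp only [cmul, cpow] at hN ⊢
        linear_combination hN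
      have h2 : (e₁ : K) * (e₁' : K) = 1 := by rw [← cmul, he₁', cone]
      rw [normSq_smul, cmul]
      linear_combination (e₁' : K) ^ 2 * h1 + ((e₁ : K) * (e₁' : K) + 1) * h2
    have h3 : ∀ c : 𝓞 K, c = e₁ → o * x = ((c * e₀' : 𝓞 K) : K) • ((((e₀ * e₁' : 𝓞 K) : K) • o) * x) := by
      rintro c rfl
      rw [smul_mul_assoc, smul_smul, ← cmul]
      have : c * e₀' * (e₀ * e₁') = 1 := by
        linear_combination he₀ * (c * e₁') + he₁'
      rw [this, cone, one_smul]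
    rcases he₁ with h | h
    · left
      exact ⟨_, hu, (h3 1 h.symm).symm⟩
    · right
      exact ⟨_, hu, (h3 B.f h.symm).symm⟩
  have hf1 := hW.1.image (fun u => ((1 * e₀' : 𝓞 K) : K) • (u * x))
  have hf2 := hW.1.image (fun u => ((B.f * e₀' : 𝓞 K) : K) • (u * x))
  calc _ ≤ _ := Set.ncard_le_ncard hsub (hf1.union hf2)
    _ ≤ _ := Set.ncard_union_le _ _
    _ ≤ 48 + 48 := Nat.add_le_add ((Set.ncard_image_le hW.1).trans hW.2) ((Set.ncard_image_le hW.1).trans hW.2)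
    _ = 96 := rfl

theorem t_CONJ : S_T1 → S_ORD → S_DUAL → S_COUNT → S_FIVE → S_CONJ := by
  intro hT hO hD hC hF K _ _ B I n hL X α hX hIX
  have hn := n_ne B n hL.tp
  have h480 := hC K B I n hL
  have hfin : (Roots B I n).Finite := Set.finite_of_ncard_ne_zero (by rw [h480]; norm_num)
  have hcl := root_class hT B I n hL
  have hne : ∀ x ∈ Roots B I n, x ≠ 0 := by
    rintro x ⟨hxI, t, ht, hl⟩ rfl
    rw [map_zero] at ht
    have h1 : (t : K) = 0 := by
      rcases mul_eq_zero.1 ht.symm with h | h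
      · exact absurd h hn
      · exact h
    have h2 : t = 0 := coe_inj' h1
    rw [h2, lam_zero] at hl
    norm_num at hl
  by_cases hA : ∃ x ∈ Roots B I n, ∃ e e' : 𝓞 K, e * e' = 1 ∧ normSq x = (n : K) * ((e ^ 2 : 𝓞 K) : K)
  · obtain ⟨x, hx, e, e', he, hN⟩ := hA
    refine ⟨x, hx.1, hne x hx, ?_, e, IsUnit.of_mul_eq_one e' he, Or.inl ?_⟩
    · obtain ⟨o, ho, h⟩ := dual_key hD hO B I n hL x (x * X) hx.1 (hIX x hx.1) _ hN
      refine ⟨((e' ^ 2 : 𝓞 K) : K) • o, (hO K B).2.2.2.1 _ _ ho, ?_⟩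
      rw [smul_mul_assoc, ← h, smul_smul, ← cmul, ← mul_pow, mul_comm e', he, one_pow, cone, one_smul]
    · rw [hN, cpow]
  · -- all roots are of the second kind
    have hB : ∀ x ∈ Roots B I n, ∃ e e' : 𝓞 K, e * e' = 1 ∧ (e = 1 ∨ e = B.f) ∧
        normSq x = (n : K) * (((2 + B.s) * e ^ 2 : 𝓞 K) : K) := by
      intro x hx
      obtain ⟨e, e', he, h | h⟩ := hcl x hx
      · exact absurd ⟨x, hx, e, e', he, h⟩ hA
      · exact ⟨e, e', he, h⟩
    have hW := W_count hO hC B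
    have hR' : ∀ x ∈ Roots B I n, ∃ e : 𝓞 K, (e = 1 ∨ e = B.f) ∧
        normSq x = (n : K) * (((2 + B.s) * e ^ 2 : 𝓞 K) : K) := by
      intro x hx
      obtain ⟨e, e', he, h⟩ := hB x hx
      exact ⟨e, h⟩
    have hmid : ∀ x ∈ Roots B I n, Mid B I (GG hO B x) := by
      intro x hx
      obtain ⟨e, e', he, h⟩ := hB x hx
      exact root_mid hD hO B I n hL x hx.1 e e' he h.2
    obtain ⟨h5, hst⟩ := hF K B I n hL
    obtain ⟨J, hJ, hJX⟩ := hst X α hX hIX
    classical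
    set R : Finset ℍ[K] := hfin.toFinset with hRdef
    have hRcard : R.card = 480 := by
      rw [← h480, Set.ncard_eq_toFinset_card _ hfin]
    have himg : 480 ≤ 96 * (R.image (GG hO B)).card := by
      rw [← hRcard]
      apply Finset.card_le_mul_card_image
      intro J' hJ'
      obtain ⟨x, hx, rfl⟩ := Finset.mem_image.1 hJ'
      have hx' : x ∈ Roots B I n := by simpa [hRdef] using hx
      obtain ⟨e, e', he, h⟩ := hB x hx'
      have := fibre hO B hW n hn (Roots B I n) hR' x e e' he h.2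
      rw [← Set.ncard_coe_finset]
      convert this using 2
      ext y
      simp [hRdef]
    have hJin : J ∈ R.image (GG hO B) := by
      by_contra hcon
      have h6 := h5 (insert J (R.image (GG hO B))) (by
        intro J' hJ'
        rcases Finset.mem_insert.1 hJ' with rfl | hJ'
        · exact hJ
        · obtain ⟨x, hx, rfl⟩ := Finset.mem_image.1 hJ'
          have hx' : x ∈ Roots B I n := by simpa [hRdef] using hx
          exact hmid x hx')
      rw [Finset.card_insert_of_notMem hcon] at h6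
      omega
    obtain ⟨x, hx, rfl⟩ := Finset.mem_image.1 hJin
    have hx' : x ∈ Roots B I n := by simpa [hRdef] using hx
    obtain ⟨e, e', he, h⟩ := hB x hx'
    refine ⟨x, hx'.1, hne x hx', ?_, e, IsUnit.of_mul_eq_one e' he, Or.inr ?_⟩
    · have hxm : x ∈ GG hO B x := (mem_GG hO B x x).2 ⟨1, (hO K B).2.2.2.2.2.1, one_mul x⟩
      obtain ⟨Y, hY, h7⟩ := (mem_GG hO B x _).1 (hJX x hxm)
      exact ⟨Y, hY, h7.symm⟩
    · rw [h.2, cmul, cadd, ctwo, cpow]
      ring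

end Pool.Agent.U688.TU
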